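import Pool.Agent.Y343.Tau.Final

/-! The largest order in which Varga's argument inequality (V) holds for all tau-matrices is 3.
The definitions `prin`, `leastReal`, `IsOmega`, `IsTau`, `SatisfiesV` are at the top of
`Pool/Agent/Y343/Tau/Defs.lean`. -/

namespace Pool.Agent.Results.MP_0e199b_al.LargestOrderThree

open Matrix Pool.Agent.Y343.Tau

/-- `N = 3`: inequality (V) holds for all tau-matrices of order `n` exactly if `n ≤ 3`.
An explicit integer tau-matrix of order four with least real eigenvalue in `(0, 8)` has the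
eigenvalue `74 + 110 i`, of argument larger than `π/4 = π/2 - π/4` even after the shift. -/
theorem result :
    IsGreatest {N : ℕ | ∀ n ≤ N, ∀ A : Matrix (Fin n) (Fin n) ℂ, IsTau A → SatisfiesV A} 3 ∧
    (∀ n : ℕ, (∀ A : Matrix (Fin n) (Fin n) ℂ, IsTau A → SatisfiesV A) ↔ n ≤ 3) ∧
    ∃ A : Matrix (Fin 4) (Fin 4) ℂ,
      A = !![2197, 374, 374, 374;
             2197, 382,   0,   0;
             2197, 374, 382,   0;
             2197, 374, 374, 382] ∧
      IsTau A ∧ (∃ t : ℝ, 0 < t ∧ t < 8 ∧ leastReal A = (t : EReal)) ∧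
      (74 + 110 * Complex.I) ∈ spectrum ℂ A ∧ ¬ SatisfiesV A := by
  refine ⟨⟨?_, ?_⟩, V_iff, M4, rfl, M4_tau.1, M4_tau.2, M4_eigen, M4_not_V⟩
  · intro n hn
    exact (V_iff n).mpr hn
  · intro N hN
    exact (V_iff N).mp (hN N le_rfl)

end Pool.Agent.Results.MP_0e199b_al.LargestOrderThree
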