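import Pool.Agent.Y343.Tau.Final

/-! The best possible bound on the arguments in order four is `π/2`, and in order `n ≥ 4` it is at
least `π - π/(n-2)`.
The definitions `prin`, `leastReal`, `IsOmega`, `IsTau` are at the top of
`Pool/Agent/Y343/Tau/Defs.lean`. -/

namespace Pool.Agent.Results.MP_0e199b_al.OrderFourSharpAngle

open Matrix Pool.Agent.Y343.Tau

/-- For every omega-matrix of order four all eigenvalues besides the least real one `t` satisfy
`|arg (μ - t)| < π/2`. In every order `n ≥ 4` the bound `π - π/(n-2)` (which is `π/2` for `n = 4`)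
is approached by tau-matrices with nonnegative real entries and positive least real eigenvalue. -/
theorem result :
    (∀ A : Matrix (Fin 4) (Fin 4) ℂ, IsOmega A → ∀ t : ℝ, leastReal A = (t : EReal) →
      ∀ μ ∈ spectrum ℂ A, μ ≠ (t : ℂ) → |Complex.arg (μ - t)| < Real.pi / 2) ∧
    (∀ n : ℕ, 4 ≤ n → ∀ θ : ℝ, θ < Real.pi - Real.pi / ((n : ℝ) - 2) →
      ∃ A : Matrix (Fin n) (Fin n) ℝ, (∀ i j, 0 ≤ A i j) ∧
        IsTau (A.map (fun r : ℝ => (r : ℂ))) ∧
        ∃ t : ℝ, 0 < t ∧ leastReal (A.map (fun r : ℝ => (r : ℂ))) = (t : EReal) ∧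
          ∃ μ ∈ spectrum ℂ (A.map (fun r : ℝ => (r : ℂ))), μ ≠ (t : ℂ) ∧
            θ < |Complex.arg μ| ∧ θ < |Complex.arg (μ - t)|) :=
  ⟨fun _ hA _ ht _ hμ hne => half_plane le_rfl hA ht hμ hne, large_arg⟩

end Pool.Agent.Results.MP_0e199b_al.OrderFourSharpAngle
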